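import Pool.Agent.R526.TP.Thin

set_option autoImplicit false

/-! # Blocks with few primes -/

namespace Pool.Agent.R526.SH

open Filter Finset Topology Pool.Agent.R526.TP

open scoped Classical

/-- the number of primes of the block `k` -/
noncomputable def Np (b : ℕ → ℕ) (k : ℕ) : ℕ := ((Ioc (b k) (b (k + 1))).filter Nat.Prime).card

/-- the blocks have length about `c log²` -/
def Len (b : ℕ → ℕ) (c : ℝ) : Prop :=
  Tendsto (fun k => ((b (k + 1) : ℝ) - b k) / (Real.log (b k)) ^ 2) atTop (𝓝 c)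

theorem two_log (c₀ c₁ : ℝ) (h0 : 0 < c₀) (h1 : c₀ < c₁) :
    ∀ᶠ x : ℝ in atTop, c₀ * (Real.log (2 * x)) ^ 2 ≤ c₁ * (Real.log x) ^ 2 := by
  filter_upwards [Real.tendsto_log_atTop.eventually_ge_atTop (4 * c₀ / (c₁ - c₀) + 1),
    eventually_gt_atTop (0 : ℝ)] with x hx hx0
  have hL1 : 1 ≤ Real.log x := by
    have : 0 ≤ 4 * c₀ / (c₁ - c₀) := div_nonneg (by linarith) (by linarith)
    linarith
  have hx' : 4 * c₀ ≤ (c₁ - c₀) * Real.log x := by
    have : 4 * c₀ / (c₁ - c₀) ≤ Real.log x := by linarith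
    rw [div_le_iff₀ (by linarith)] at this
    linarith
  rw [Real.log_mul (by norm_num) hx0.ne']
  have hl2 : Real.log 2 ≤ 1 := by
    have := Real.log_two_lt_d9
    linarith
  have hl20 : 0 ≤ Real.log 2 := Real.log_nonneg (by norm_num)
  have h3 : (Real.log 2 + Real.log x) ^ 2 ≤ (1 + Real.log x) ^ 2 := by
    apply pow_le_pow_left₀ (by linarith)
    linarith
  have h4 : c₀ * (Real.log 2 + Real.log x) ^ 2 ≤ c₀ * (1 + Real.log x) ^ 2 :=
    mul_le_mul_of_nonneg_left h3 (by linarith)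
  refine h4.trans ?_
  nlinarith

theorem sq_log_le (C : ℝ) (hC : 0 < C) : ∀ᶠ x : ℝ in atTop, C * (Real.log x) ^ 2 ≤ x := by
  have h1 := (Real.isLittleO_pow_log_id_atTop (n := 2)).bound (show (0 : ℝ) < 1 / C by positivity)
  filter_upwards [h1, eventually_ge_atTop (1 : ℝ)] with x h2 h3
  rw [Real.norm_of_nonneg (pow_nonneg (Real.log_nonneg h3) 2), id,
    Real.norm_of_nonneg (by linarith)] at h2
  have h4 : C * (Real.log x) ^ 2 ≤ C * (1 / C * x) := mul_le_mul_of_nonneg_left h2 hC.le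
  refine h4.trans (le_of_eq ?_)
  field_simp

/-- every window of length `c₁ (M + 1) log²` contains `M` blocks -/
theorem blocks_in (b : ℕ → ℕ) (hb : StrictMono b) (c c₁ : ℝ) (hc : 0 < c) (hcc : c < c₁)
    (hlen : Len b c) (M : ℕ) : ∃ A : ℝ, ∀ n : ℕ, A ≤ n → ∃ k : ℕ, n ≤ b k ∧
      (b (k + M) : ℝ) ≤ n + c₁ * (M + 1) * (Real.log n) ^ 2 := by
  obtain ⟨c₀, hc0, hc01⟩ := exists_between hcc
  obtain ⟨k₁, hk₁⟩ := eventually_atTop.1 (hlen.eventually_le_const hc0)
  obtain ⟨k₀, hk₀2, hk₀1⟩ : ∃ k₀, 2 ≤ k₀ ∧ k₁ ≤ k₀ := ⟨max 2 k₁, le_max_left _ _, le_max_right _ _⟩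
  have hk₀ : ∀ k, k₀ ≤ k → ((b (k + 1) : ℝ) - b k) / (Real.log (b k)) ^ 2 ≤ c₀ := fun k hk =>
    hk₁ k (by omega)
  have hc1 : 0 < c₁ := hc.trans hcc
  have hc0' : 0 < c₀ := hc.trans hc0
  obtain ⟨A₁, hA₁⟩ := eventually_atTop.1 (two_log c₀ c₁ hc0' hc01)
  obtain ⟨A₂, hA₂⟩ := eventually_atTop.1 (sq_log_le (c₁ * (M + 1)) (by positivity))
  refine ⟨max (max A₁ A₂) (b (k₀ + 1) + 2), fun n hn => ?_⟩
  have hn1 : A₁ ≤ n := (le_max_left _ _).trans ((le_max_left _ _).trans hn)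
  have hn2 : A₂ ≤ n := (le_max_right _ _).trans ((le_max_left _ _).trans hn)
  have hn3 : (b (k₀ + 1) : ℝ) + 2 ≤ n := (le_max_right _ _).trans hn
  have hn3' : b (k₀ + 1) + 2 ≤ n := by exact_mod_cast hn3
  have hn4 : (2 : ℝ) ≤ n := by
    have : (0 : ℝ) ≤ b (k₀ + 1) := Nat.cast_nonneg _
    linarith
  have hex : ∃ k, n ≤ b k := ⟨n, hb.id_le n⟩
  set k := Nat.find hex with hk
  have hk1 : n ≤ b k := Nat.find_spec hex
  have hkk : k₀ + 1 < k := by
    by_contra hcon
    have := hb.monotone (not_lt.1 hcon)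
    omega
  obtain ⟨k', hk'⟩ : ∃ k', k = k' + 1 := ⟨k - 1, by omega⟩
  have hk2 : b k' < n := by
    have := Nat.find_min hex (m := k') (by omega)
    omega
  set Λ := c₁ * (Real.log n) ^ 2 with hΛ
  have hΛ0 : 0 ≤ Λ := by positivity
  have hM : (M + 1) * Λ ≤ n := by
    have := hA₂ n hn2
    rw [hΛ]
    linarith
  have hΛ2 : c₀ * (Real.log (2 * n)) ^ 2 ≤ Λ := hA₁ n hn1
  have hlen' : ∀ i, k₀ ≤ i → (b i : ℝ) ≤ 2 * n → (b (i + 1) : ℝ) ≤ b i + Λ := by
    intro i hi h2n
    have h5 := hk₀ i hi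
    have h : 2 ≤ b i := (show 2 ≤ i by omega).trans (hb.id_le i)
    have hb1 : (2 : ℝ) ≤ b i := by exact_mod_cast h
    have hlb : 0 < Real.log (b i) := Real.log_pos (by linarith)
    rw [div_le_iff₀ (by positivity)] at h5
    have h6 : Real.log (b i) ≤ Real.log (2 * n) := Real.log_le_log (by linarith) h2n
    have h7 : c₀ * (Real.log (b i)) ^ 2 ≤ c₀ * (Real.log (2 * n)) ^ 2 := by gcongr
    linarith
  have hfirst : (b k : ℝ) ≤ n + Λ := by
    have hk2r : (b k' : ℝ) < n := by exact_mod_cast hk2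
    have h1 := hlen' k' (by omega) (by linarith)
    rw [hk']
    linarith
  have hstep : ∀ i : ℕ, i ≤ M → (b (k + i) : ℝ) ≤ n + (i + 1) * Λ := by
    intro i
    induction i with
    | zero => intro _; simpa using hfirst
    | succ i ih =>
      intro hi
      have h1 := ih (by omega)
      have hi' : ((i : ℝ) + 1) ≤ M + 1 := by
        have : (i : ℝ) ≤ M := by exact_mod_cast (by omega : i ≤ M)
        linarith
      have h2 : ((i : ℝ) + 1) * Λ ≤ n := (mul_le_mul_of_nonneg_right hi' hΛ0).trans hM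
      have h3 := hlen' (k + i) (by omega) (by linarith)
      have h4 : k + (i + 1) = k + i + 1 := by ring
      rw [h4]
      push_cast
      linarith
  refine ⟨k, hk1, ?_⟩
  have h1 := hstep M le_rfl
  have : c₁ * (M + 1) * (Real.log n) ^ 2 = (M + 1) * Λ := by rw [hΛ]; ring
  rw [this]
  exact h1

/-- the primes of consecutive blocks -/
theorem sum_Np (b : ℕ → ℕ) (hb : StrictMono b) (k : ℕ) : ∀ M : ℕ,
    ∑ i ∈ range M, Np b (k + i) = ((Ioc (b k) (b (k + M))).filter Nat.Prime).card := by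
  intro M
  induction M with
  | zero => simp
  | succ M ih =>
    rw [sum_range_succ, ih]
    unfold Np
    rw [← card_union_of_disjoint]
    · congr 1
      rw [← filter_union]
      congr 1
      ext p
      have h1 : b k ≤ b (k + M) := hb.monotone (by omega)
      have h2 : b (k + M) ≤ b (k + M + 1) := hb.monotone (by omega)
      rw [mem_union, mem_Ioc, mem_Ioc, mem_Ioc]
      have : k + (M + 1) = k + M + 1 := by ring
      rw [this]
      omega
    · apply disjoint_filter_filter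
      rw [disjoint_left]
      intro p hp hq
      rw [mem_Ioc] at hp hq
      omega

/-- the good blocks -/
noncomputable def GB (b : ℕ → ℕ) (κ η : ℝ) (m : ℕ) : Finset ℕ :=
  (range (2 ^ (m + 1) + 1)).filter (fun k => ((2 : ℝ) ^ m) ^ (1 - η) / 2 ≤ b k ∧
    b (k + 1) ≤ 2 ^ (m + 1) ∧ (Np b k : ℝ) ≤ κ * Real.log (b k))

theorem good_blocks (b : ℕ → ℕ) (hb : StrictMono b) (c : ℝ) (hc : 0 < c) (hlen : Len b c)
    (κ η : ℝ) (hκ : c < 2 * Real.exp (-Real.eulerMascheroniConstant) * κ) (hη : 0 < η)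
    (hη1 : η < 1) :
    ∀ᶠ m : ℕ in atTop, ((2 : ℝ) ^ m) ^ (1 - 2 * η) ≤ ((GB b κ η m).card : ℝ) := by
  set G : ℝ := 2 * Real.exp (-Real.eulerMascheroniConstant) with hG
  have hG0 : 0 < G := by positivity
  obtain ⟨c₁, hc1, hc1κ⟩ := exists_between hκ
  have hc10 : 0 < c₁ := hc.trans hc1
  have hκ0 : 0 < κ := by
    by_contra hcon
    have : G * κ ≤ 0 := mul_nonpos_of_nonneg_of_nonpos hG0.le (not_lt.1 hcon)
    linarith
  -- the number of blocks of a window
  obtain ⟨M, hM⟩ := exists_nat_gt (c₁ / (G * κ - c₁))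
  have hd : 0 < G * κ - c₁ := by linarith
  rw [div_lt_iff₀ hd] at hM
  have hM0 : 0 < M := by
    rcases Nat.eq_zero_or_pos M with h | h
    · rw [h] at hM
      simp at hM
      linarith
    · exact h
  have hMr : (0 : ℝ) < M := by exact_mod_cast hM0
  set κ' : ℝ := κ * M with hκ'
  set c' : ℝ := c₁ * (M + 1) with hc'
  have hκ'0 : 0 < κ' := by positivity
  have hc'0 : 0 < c' := by positivity
  have hcκ' : c' < G * κ' := by
    rw [hc', hκ']
    nlinarith
  obtain ⟨A, hA⟩ := blocks_in b hb c c₁ hc hc1 hlen M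
  have e1 := windows κ' c' η hκ'0 hcκ' hη
  have e2 : ∀ᶠ m : ℕ in atTop, c' * (m : ℝ) ^ 2 + 1 ≤ 1 / 2 * ((2 : ℝ) ^ m) ^ η := by
    have hr : (1 : ℝ) < (2 : ℝ) ^ η := Real.one_lt_rpow (by norm_num) hη
    have h1 := (tendsto_pow_const_div_const_pow_of_one_lt 2 hr).eventually_le_const
      (show (0 : ℝ) < 1 / (8 * c') by positivity)
    have h2 := (tendsto_pow_atTop_atTop_of_one_lt hr).eventually_ge_atTop 8
    filter_upwards [h1, h2] with k h1 h2
    rw [div_le_iff₀ (by positivity)] at h1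
    have h3 : ((2 : ℝ) ^ k) ^ η = ((2 : ℝ) ^ η) ^ k := by
      rw [← Real.rpow_natCast, ← Real.rpow_natCast, ← Real.rpow_mul (by norm_num), ← Real.rpow_mul (by norm_num), mul_comm]
    rw [h3]
    set z := ((2 : ℝ) ^ η) ^ k with hz
    have h4 : c' * (k : ℝ) ^ 2 ≤ z / 8 := by
      rw [one_div, inv_mul_eq_div, le_div_iff₀ (by positivity)] at h1
      linarith
    linarith
  have hpow : Tendsto (fun k : ℕ => ((2 : ℝ) ^ k)) atTop atTop :=
    tendsto_pow_atTop_atTop_of_one_lt (by norm_num : (1 : ℝ) < 2)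
  have e3 : ∀ᶠ m : ℕ in atTop, max A 2 ≤ ((2 : ℝ) ^ m) ^ (1 - η) / 2 := by
    have ht : Tendsto (fun k : ℕ => ((2 : ℝ) ^ k) ^ (1 - η) / 2) atTop atTop := by
      apply Tendsto.atTop_div_const (by norm_num)
      exact (tendsto_rpow_atTop (by linarith)).comp hpow
    exact ht.eventually_ge_atTop _
  have e4 : ∀ᶠ m : ℕ in atTop, c' * (Real.log ((2 : ℝ) ^ m)) ^ 2 ≤ (2 : ℝ) ^ m :=
    hpow.eventually (sq_log_le c' hc'0)
  filter_upwards [e1, e2, e3, e4, eventually_ge_atTop 1] with m h1 h2 h3 h4 hm1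
  set x : ℝ := (2 : ℝ) ^ m with hx
  have hx1 : 1 ≤ x := one_le_pow₀ (by norm_num)
  have hx0 : 0 < x := by linarith
  set y := x ^ (1 - η) with hy
  have hyA : A ≤ y / 2 := (le_max_left _ _).trans h3
  have hy2 : 2 ≤ y / 2 := (le_max_right _ _).trans h3
  set S := SS κ' c' y (2 ^ m) with hS
  have hSn : ∀ n ∈ S, (y / 2 < n ∧ (n : ℝ) ≤ x ∧ n ≤ 2 ^ m) ∧
      ((TT n ⌊c' * (Real.log n) ^ 2⌋₊).card : ℝ) ≤ κ' * Real.log n := by
    intro n hn
    rw [hS] at hn
    unfold SS at hn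
    rw [mem_filter, mem_Icc] at hn
    refine ⟨⟨hn.2.1, ?_, hn.1.2⟩, hn.2.2⟩
    have : (n : ℝ) ≤ ((2 ^ m : ℕ) : ℝ) := by exact_mod_cast hn.1.2
    push_cast at this
    exact this
  set W : ℕ := ⌊c' * (Real.log x) ^ 2⌋₊ with hW
  have hWr : (W : ℝ) ≤ c' * (Real.log x) ^ 2 := Nat.floor_le (by positivity)
  -- the good block of a window
  have hex : ∀ n : ℕ, ∃ k : ℕ, n ∈ S → (n ≤ b k ∧ b (k + 1) ≤ n + W ∧
      (Np b k : ℝ) ≤ κ * Real.log (b k)) := by
    intro n
    by_cases hn : n ∈ S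
    · obtain ⟨⟨g1, g2, g3⟩, g4⟩ := hSn n hn
      obtain ⟨k, hk1, hk2⟩ := hA n (by linarith)
      have hn2 : (2 : ℝ) < n := by linarith
      have hln : 0 < Real.log n := Real.log_pos (by linarith)
      have hlnx : Real.log n ≤ Real.log x := Real.log_le_log (by linarith) g2
      have hk3 : b (k + M) ≤ n + ⌊c' * (Real.log n) ^ 2⌋₊ := by
        have h5 : b (k + M) - n ≤ ⌊c' * (Real.log n) ^ 2⌋₊ := by
          apply Nat.le_floor
          rw [Nat.cast_sub (hk1.trans (hb.monotone (by omega)))]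
          linarith
        omega
      have hwW : ⌊c' * (Real.log n) ^ 2⌋₊ ≤ W := by
        apply Nat.floor_le_floor
        gcongr
      have hsum : (∑ i ∈ range M, Np b (k + i)) ≤ (TT n ⌊c' * (Real.log n) ^ 2⌋₊).card := by
        rw [sum_Np b hb k M]
        apply card_le_card
        unfold TT
        apply filter_subset_filter
        exact Ioc_subset_Ioc hk1 hk3
      have hsumr : ∑ i ∈ range M, (Np b (k + i) : ℝ) ≤ κ * Real.log n * M := by
        have h6 : ((∑ i ∈ range M, Np b (k + i) : ℕ) : ℝ) ≤ κ' * Real.log n :=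
          le_trans (by exact_mod_cast hsum) g4
        push_cast at h6
        rw [hκ'] at h6
        linarith
      have hpig : ∃ i ∈ range M, (Np b (k + i) : ℝ) ≤ κ * Real.log n := by
        by_contra hcon
        push Not at hcon
        have h7 : ∑ i ∈ range M, κ * Real.log n < ∑ i ∈ range M, (Np b (k + i) : ℝ) :=
          sum_lt_sum_of_nonempty ⟨0, mem_range.2 hM0⟩ hcon
        rw [sum_const, card_range, nsmul_eq_mul] at h7
        linarith
      obtain ⟨i, hi, hi2⟩ := hpig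
      rw [mem_range] at hi
      refine ⟨k + i, fun _ => ⟨hk1.trans (hb.monotone (by omega)), ?_, ?_⟩⟩
      · have h8 : b (k + i + 1) ≤ b (k + M) := hb.monotone (by omega)
        omega
      · refine hi2.trans ?_
        apply mul_le_mul_of_nonneg_left _ hκ0.le
        apply Real.log_le_log (by linarith)
        exact_mod_cast hk1.trans (hb.monotone (by omega))
    · exact ⟨0, fun h => absurd h hn⟩
  choose φ hφ using hex
  have hWx : (W : ℝ) ≤ x := hWr.trans h4
  have hWx' : W ≤ 2 ^ m := by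
    have : (W : ℝ) ≤ ((2 ^ m : ℕ) : ℝ) := by push_cast; exact hWx
    exact_mod_cast this
  have himg : S.image φ ⊆ GB b κ η m := by
    intro k hk
    rw [mem_image] at hk
    obtain ⟨n, hn, rfl⟩ := hk
    obtain ⟨f1, f2, f3⟩ := hφ n hn
    obtain ⟨⟨g1, g2, g3⟩, g4⟩ := hSn n hn
    have hp : 2 ^ (m + 1) = 2 ^ m + 2 ^ m := by ring
    have hb2 : b (φ n + 1) ≤ 2 ^ (m + 1) := by omega
    unfold GB
    rw [mem_filter, mem_range]
    refine ⟨?_, ?_, hb2, f3⟩
    · have h5 := hb.id_le (φ n + 1)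
      simp only [id] at h5
      omega
    · have h5 : (n : ℝ) ≤ b (φ n) := by exact_mod_cast f1
      linarith
  have hfib : ∀ k ∈ S.image φ, (S.filter (fun n => φ n = k)).card ≤ W + 1 := by
    intro k _
    have hsub : S.filter (fun n => φ n = k) ⊆ Icc (b k - W) (b k) := by
      intro n hn
      rw [mem_filter] at hn
      obtain ⟨f1, f2, f3⟩ := hφ n hn.1
      rw [hn.2] at f1 f2
      have := hb (Nat.lt_succ_self k)
      rw [mem_Icc]
      have h6 : b k < b (k + 1) := this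
      omega
    refine (card_le_card hsub).trans ?_
    rw [Nat.card_Icc]
    omega
  have hcard := card_le_mul_card_image S (W + 1) hfib
  have hcard2 : (S.card : ℝ) ≤ (W + 1) * ((GB b κ η m).card : ℝ) := by
    have h5 : S.card ≤ (W + 1) * (GB b κ η m).card :=
      hcard.trans (Nat.mul_le_mul_left _ (card_le_card himg))
    exact_mod_cast h5
  have hW1 : (W : ℝ) + 1 ≤ 1 / 2 * x ^ η := by
    refine le_trans ?_ h2
    have hlx : Real.log x = m * Real.log 2 := by rw [hx, Real.log_pow]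
    have b2 : Real.log 2 ≤ 1 := by
      have := Real.log_two_lt_d9
      linarith
    have b3 : (m : ℝ) * Real.log 2 ≤ m := by
      have : (0 : ℝ) ≤ m := Nat.cast_nonneg m
      nlinarith
    have b4 : 0 ≤ (m : ℝ) * Real.log 2 := by positivity
    have : c' * (Real.log x) ^ 2 ≤ c' * (m : ℝ) ^ 2 := by
      rw [hlx]
      gcongr
    linarith
  have hfin : y / 2 ≤ 1 / 2 * x ^ η * ((GB b κ η m).card : ℝ) := by
    refine h1.trans (hcard2.trans ?_)
    exact mul_le_mul_of_nonneg_right hW1 (Nat.cast_nonneg _)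
  have hsplit : y = x ^ η * x ^ (1 - 2 * η) := by
    rw [hy, ← Real.rpow_add hx0]
    congr 1
    ring
  rw [hsplit] at hfin
  have hxη : 0 < x ^ η := by positivity
  have : x ^ η * x ^ (1 - 2 * η) ≤ x ^ η * ((GB b κ η m).card : ℝ) := by linarith
  exact le_of_mul_le_mul_left this hxη

end Pool.Agent.R526.SH
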