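import Pool.Agent.R526.SH.Unif
import Pool.Agent.R526.SH.Blocks
import Pool.Agent.R526.TP.Fin
import Pool.Agent.R526.TP.Num

set_option autoImplicit false

/-! # Gaps between randomly shuffled primes -/

namespace Pool.Agent.R526.SH

open MeasureTheory ProbabilityTheory Filter Finset Topology Pool.Agent.R526.TP

open scoped Classical

/-- a prime in the middle of `(y, 2y]` -/
theorem mid_prime : ∀ᶠ y : ℝ in atTop, ∃ p : ℕ, p.Prime ∧ 5 / 4 * y < p ∧ (p : ℝ) ≤ 7 / 4 * y := by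
  have hpi := Pool.Agent.Helper923.PNT.pi_tendsto
  have t1 : Tendsto (fun y : ℝ => 5 / 4 * y) atTop atTop := tendsto_id.const_mul_atTop (by norm_num)
  have t2 : Tendsto (fun y : ℝ => 7 / 4 * y) atTop atTop := tendsto_id.const_mul_atTop (by norm_num)
  have e1 := (hpi.comp t1).eventually_le_const (show (1 : ℝ) < 11 / 10 by norm_num)
  have e2 := (hpi.comp t2).eventually_const_le (show (9 / 10 : ℝ) < 1 by norm_num)
  filter_upwards [e1, e2, eventually_gt_atTop (0 : ℝ), Real.tendsto_log_atTop.eventually_ge_atTop 10]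
    with y h1 h2 hy hl
  simp only [Function.comp_apply] at h1 h2
  by_contra hcon
  push Not at hcon
  have heq : Nat.primeCounting ⌊7 / 4 * y⌋₊ ≤ Nat.primeCounting ⌊5 / 4 * y⌋₊ := by
    unfold Nat.primeCounting Nat.primeCounting'
    rw [Nat.count_eq_card_filter_range, Nat.count_eq_card_filter_range]
    apply card_le_card
    intro p hp
    rw [mem_filter, mem_range, Nat.lt_succ_iff] at hp ⊢
    refine ⟨?_, hp.2⟩
    have h3 : (p : ℝ) ≤ 7 / 4 * y := (Nat.le_floor_iff (by positivity)).1 hp.1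
    apply Nat.le_floor
    by_contra h4
    exact absurd h3 (not_le.2 (hcon p hp.2 (not_le.1 h4)))
  have heqr : (Nat.primeCounting ⌊7 / 4 * y⌋₊ : ℝ) ≤ (Nat.primeCounting ⌊5 / 4 * y⌋₊ : ℝ) := by
    exact_mod_cast heq
  set a : ℝ := (Nat.primeCounting ⌊5 / 4 * y⌋₊ : ℝ) with ha
  have ha0 : 0 ≤ a := Nat.cast_nonneg _
  rw [div_le_iff₀ (by positivity)] at h1
  rw [le_div_iff₀ (by positivity)] at h2
  have l1 : Real.log (7 / 4 * y) = Real.log (5 / 4 * y) + Real.log (7 / 5) := by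
    rw [← Real.log_mul (by positivity) (by norm_num)]
    congr 1
    ring
  have l2 : Real.log (7 / 5) ≤ 2 / 5 := by
    have := Real.log_le_sub_one_of_pos (show (0 : ℝ) < 7 / 5 by norm_num)
    linarith
  have l20 : 0 ≤ Real.log (7 / 5) := Real.log_nonneg (by norm_num)
  have l3 : 10 ≤ Real.log (5 / 4 * y) := hl.trans (Real.log_le_log hy (by linarith))
  have l4 : 0 ≤ Real.log (7 / 4 * y) := by rw [l1]; linarith
  have m1 : 9 / 10 * (7 / 4 * y) ≤ a * Real.log (7 / 4 * y) :=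
    h2.trans (mul_le_mul_of_nonneg_right heqr l4)
  rw [l1, mul_add] at m1
  have m2 : a * 10 ≤ a * Real.log (5 / 4 * y) := mul_le_mul_of_nonneg_left l3 ha0
  have m3 : a * Real.log (7 / 5) ≤ a * (2 / 5) := mul_le_mul_of_nonneg_left l2 ha0
  linarith

variable {Ω : Type} [MeasurableSpace Ω] (μ : Measure Ω) [IsProbabilityMeasure μ]

/-- no element of the random set in the initial part of length `τ log²` of the block `k` -/
def EE (b : ℕ → ℕ) (S : ℕ → Ω → Finset ℕ) (τ : ℝ) (k : ℕ) : Set Ω :=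
  {ω | Disjoint (S k ω) (Ioc (b k) (b k + ⌊τ * (Real.log (b k)) ^ 2⌋₊))}

theorem Np_le (b : ℕ → ℕ) (k : ℕ) : Np b k ≤ b (k + 1) - b k := by
  unfold Np
  refine (card_filter_le _ _).trans ?_
  rw [Nat.card_Ioc]

/-- large good blocks -/
theorem block_facts (b : ℕ → ℕ) (hb : StrictMono b) (c : ℝ) (hlen : Len b c) (c' κ τ η : ℝ)
    (hc' : c' < c) (hτ0 : 0 < τ) (hτ : τ < c') (hη1 : η < 1) (L₀ : ℝ) :
    ∀ᶠ m : ℕ in atTop, ∀ k ∈ GB b κ η m, L₀ ≤ Real.log (b k) ∧ 0 < Real.log (b k) ∧ 1 ≤ b k ∧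
      c' * (Real.log (b k)) ^ 2 + Np b k ≤ (b (k + 1) : ℝ) - b k ∧
      b k + ⌊τ * (Real.log (b k)) ^ 2⌋₊ + Np b k ≤ b (k + 1) := by
  obtain ⟨c₂, hc2', hc2⟩ := exists_between hc'
  obtain ⟨k₀, hk₀⟩ := eventually_atTop.1 (hlen.eventually_const_le hc2)
  have hpow : Tendsto (fun k : ℕ => ((2 : ℝ) ^ k)) atTop atTop :=
    tendsto_pow_atTop_atTop_of_one_lt (by norm_num : (1 : ℝ) < 2)
  have ht : Tendsto (fun k : ℕ => ((2 : ℝ) ^ k) ^ (1 - η) / 2) atTop atTop := by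
    apply Tendsto.atTop_div_const (by norm_num)
    exact (tendsto_rpow_atTop (by linarith)).comp hpow
  filter_upwards [ht.eventually_ge_atTop (b k₀ : ℝ),
    (Real.tendsto_log_atTop.comp ht).eventually_ge_atTop (max (max L₀ 1) (κ / (c₂ - c'))),
    ht.eventually_ge_atTop 2] with m h1 h2 h3 k hk
  simp only [Function.comp_apply] at h2
  unfold GB at hk
  rw [mem_filter] at hk
  obtain ⟨-, hk1, hk2, hk3⟩ := hk
  have hb2 : (2 : ℝ) ≤ b k := h3.trans hk1
  have hlk : Real.log (((2 : ℝ) ^ m) ^ (1 - η) / 2) ≤ Real.log (b k) :=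
    Real.log_le_log (by linarith) hk1
  set L := Real.log (b k) with hL
  have hL0 : L₀ ≤ L := (le_max_left _ _).trans ((le_max_left _ _).trans (h2.trans hlk))
  have hL1 : 1 ≤ L := (le_max_right _ _).trans ((le_max_left _ _).trans (h2.trans hlk))
  have hL2 : κ / (c₂ - c') ≤ L := (le_max_right _ _).trans (h2.trans hlk)
  rw [div_le_iff₀ (by linarith)] at hL2
  have hkk : k₀ ≤ k := by
    have h4 : b k₀ ≤ b k := by exact_mod_cast h1.trans hk1
    exact hb.le_iff_le.1 h4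
  have h5 := hk₀ k hkk
  rw [← hL, le_div_iff₀ (by positivity)] at h5
  have h6 : (Np b k : ℝ) ≤ (c₂ - c') * L ^ 2 := by
    refine hk3.trans ?_
    have := mul_le_mul_of_nonneg_right hL2 (show 0 ≤ L by linarith)
    nlinarith
  have h7 : c' * L ^ 2 + Np b k ≤ (b (k + 1) : ℝ) - b k := by linarith
  refine ⟨hL0, by linarith, ?_, h7, ?_⟩
  · have : (1 : ℝ) ≤ b k := by linarith
    exact_mod_cast this
  · have h8 : ((⌊τ * L ^ 2⌋₊ : ℕ) : ℝ) ≤ τ * L ^ 2 := Nat.floor_le (by positivity)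
    have h9 : τ * L ^ 2 ≤ c' * L ^ 2 := mul_le_mul_of_nonneg_right hτ.le (by positivity)
    have : ((b k + ⌊τ * L ^ 2⌋₊ + Np b k : ℕ) : ℝ) ≤ (b (k + 1) : ℝ) := by
      push_cast
      linarith
    exact_mod_cast this

theorem low_prob (b : ℕ → ℕ) (hb : StrictMono b) (c : ℝ) (hlen : Len b c)
    (S : ℕ → Ω → Finset ℕ) (hm : ∀ k T, MeasurableSet {ω | S k ω = T})
    (hunif : ∀ k, ∀ T ∈ (Ioc (b k) (b (k + 1))).powersetCard (Np b k),
      μ.real {ω | S k ω = T} = 1 / ((b (k + 1) - b k).choose (Np b k) : ℝ))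
    (c' κ τ η : ℝ) (hc' : c' < c) (hτ0 : 0 < τ) (hτ : τ < c') (hκ : 0 < κ) (hη1 : η < 1) (hη0 : 0 < η)
    (hη3 : 0 ≤ 1 - 3 * η) (hκη : κ * (-Real.log (1 - τ / c')) ≤ 1 - 3 * η) :
    ∀ᶠ m : ℕ in atTop, ∀ k ∈ GB b κ η m,
      ((2 : ℝ) ^ m) ^ (-(1 - 3 * η)) / 2 ≤ μ.real (EE b S τ k) := by
  filter_upwards [block_facts b hb c hlen c' κ τ η hc' hτ0 hτ hη1 1] with m h1 k hk
  obtain ⟨hL1, hL0, hb1, h2, h3⟩ := h1 k hk
  unfold GB at hk
  rw [mem_filter] at hk
  obtain ⟨-, hk1, hk2, hk3⟩ := hk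
  set L := Real.log (b k) with hL
  set x : ℝ := (2 : ℝ) ^ m with hx
  have hx0 : 0 < x := by positivity
  have hc'0 : 0 < c' := hτ0.trans hτ
  have hq0 : 0 < 1 - τ / c' := by
    rw [sub_pos, div_lt_one hc'0]
    exact hτ
  have hbk : b k < b (k + 1) := hb (Nat.lt_succ_self k)
  set j := ⌊τ * L ^ 2⌋₊ with hj
  have h4 := empty_prob μ (b k) (b (k + 1)) hbk.le (S k) (hm k) (Np b k) (hunif k) j (by omega)
  have hlr : ((b (k + 1) - b k : ℕ) : ℝ) = (b (k + 1) : ℝ) - b k := Nat.cast_sub hbk.le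
  rw [hlr] at h4
  refine le_trans ?_ h4
  have hden : c' * L ^ 2 ≤ (b (k + 1) : ℝ) - b k - Np b k := by linarith
  have hden0 : 0 < c' * L ^ 2 := by positivity
  have hjr : (j : ℝ) ≤ τ * L ^ 2 := Nat.floor_le (by positivity)
  have h5 : (j : ℝ) / ((b (k + 1) : ℝ) - b k - Np b k) ≤ τ / c' := by
    rw [div_le_div_iff₀ (by linarith) hc'0]
    have h6 : (j : ℝ) * c' ≤ τ * L ^ 2 * c' := mul_le_mul_of_nonneg_right hjr hc'0.le
    have h7 : τ * (c' * L ^ 2) ≤ τ * ((b (k + 1) : ℝ) - b k - Np b k) :=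
      mul_le_mul_of_nonneg_left hden hτ0.le
    linarith
  have h6 : (1 - τ / c') ^ (Np b k) ≤
      (1 - (j : ℝ) / ((b (k + 1) : ℝ) - b k - Np b k)) ^ (Np b k) :=
    pow_le_pow_left₀ hq0.le (by linarith) _
  refine le_trans ?_ h6
  have h7 : (1 - τ / c') ^ (Np b k) = Real.exp (-((Np b k : ℝ) * (-Real.log (1 - τ / c')))) := by
    rw [mul_neg, neg_neg, Real.exp_nat_mul, Real.exp_log hq0]
  rw [h7]
  have hlam : 0 ≤ -Real.log (1 - τ / c') := by
    rw [neg_nonneg]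
    apply Real.log_nonpos hq0.le
    have : 0 < τ / c' := by positivity
    linarith
  have h8 : (Np b k : ℝ) * (-Real.log (1 - τ / c')) ≤ (1 - 3 * η) * L := by
    have h9 : (Np b k : ℝ) * (-Real.log (1 - τ / c')) ≤ κ * L * (-Real.log (1 - τ / c')) :=
      mul_le_mul_of_nonneg_right hk3 hlam
    have h10 : κ * (-Real.log (1 - τ / c')) * L ≤ (1 - 3 * η) * L :=
      mul_le_mul_of_nonneg_right hκη hL0.le
    linarith
  have hb2x : (b k : ℝ) ≤ 2 * x := by
    have h9 : (b k : ℝ) ≤ ((2 ^ (m + 1) : ℕ) : ℝ) := by exact_mod_cast hbk.le.trans hk2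
    push_cast at h9
    rw [pow_succ] at h9
    linarith
  have hbpos : (0 : ℝ) < b k := by exact_mod_cast hb1
  have hL2x : L ≤ Real.log (2 * x) := Real.log_le_log hbpos hb2x
  have h9 : Real.exp (-((1 - 3 * η) * Real.log (2 * x))) ≤
      Real.exp (-((Np b k : ℝ) * (-Real.log (1 - τ / c')))) := by
    apply Real.exp_le_exp.2
    have := mul_le_mul_of_nonneg_left hL2x hη3
    linarith
  refine le_trans ?_ h9
  have h10 : Real.exp (-((1 - 3 * η) * Real.log (2 * x))) = (2 * x) ^ (-(1 - 3 * η)) := by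
    rw [Real.rpow_def_of_pos (by positivity)]
    congr 1
    ring
  rw [h10, Real.mul_rpow (by norm_num) hx0.le]
  have h11 : (1 : ℝ) / 2 ≤ (2 : ℝ) ^ (-(1 - 3 * η)) := by
    have : (1 : ℝ) / 2 = (2 : ℝ) ^ (-1 : ℝ) := by
      rw [Real.rpow_neg_one]; norm_num
    rw [this]
    apply Real.rpow_le_rpow_of_exponent_le (by norm_num)
    linarith
  have h12 : 0 ≤ x ^ (-(1 - 3 * η)) := by positivity
  nlinarith

/-- no good block has an empty initial part -/
def Bad (b : ℕ → ℕ) (S : ℕ → Ω → Finset ℕ) (κ τ η : ℝ) (m : ℕ) : Set Ω :=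
  ⋂ k ∈ GB b κ η m, (EE b S τ k)ᶜ

variable [MeasurableSpace (Finset ℕ)] [DiscreteMeasurableSpace (Finset ℕ)]

theorem bad_prob (b : ℕ → ℕ) (hb : StrictMono b) (c : ℝ) (hc : 0 < c) (hlen : Len b c)
    (S : ℕ → Ω → Finset ℕ) (hm : ∀ k, Measurable (S k)) (hind : iIndepFun S μ)
    (hunif : ∀ k, ∀ T ∈ (Ioc (b k) (b (k + 1))).powersetCard (Np b k),
      μ.real {ω | S k ω = T} = 1 / ((b (k + 1) - b k).choose (Np b k) : ℝ))
    (c' κ τ η : ℝ) (hc' : c' < c) (hτ0 : 0 < τ) (hτ : τ < c') (hη0 : 0 < η)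
    (hκ : c < 2 * Real.exp (-Real.eulerMascheroniConstant) * κ)
    (hη3 : 0 ≤ 1 - 3 * η) (hκη : κ * (-Real.log (1 - τ / c')) ≤ 1 - 3 * η) :
    ∀ᶠ m : ℕ in atTop, μ.real (Bad b S κ τ η m) ≤ (1 / 2 : ℝ) ^ m := by
  have hκ0 : 0 < κ := by
    by_contra hcon
    have : 2 * Real.exp (-Real.eulerMascheroniConstant) * κ ≤ 0 :=
      mul_nonpos_of_nonneg_of_nonpos (by positivity) (not_lt.1 hcon)
    linarith
  have hη1 : η < 1 := by linarith
  have hm' : ∀ k T, MeasurableSet {ω | S k ω = T} := by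
    intro k T
    exact hm k (MeasurableSet.of_discrete (s := {T}))
  have e1 := low_prob μ b hb c hlen S hm' hunif c' κ τ η hc' hτ0 hτ hκ0 hη1 hη0 hη3 hκη
  have e2 := good_blocks b hb c hc hlen κ η hκ hη0 hη1
  have e3 : ∀ᶠ m : ℕ in atTop, (m : ℝ) ≤ ((2 : ℝ) ^ m) ^ η / 2 := by
    have hr : (1 : ℝ) < (2 : ℝ) ^ η := Real.one_lt_rpow (by norm_num) hη0
    have h1 := (tendsto_pow_const_div_const_pow_of_one_lt 1 hr).eventually_le_const
      (show (0 : ℝ) < 1 / 2 by norm_num)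
    filter_upwards [h1] with k h1
    rw [div_le_iff₀ (by positivity), pow_one] at h1
    have h3 : ((2 : ℝ) ^ k) ^ η = ((2 : ℝ) ^ η) ^ k := by
      rw [← Real.rpow_natCast, ← Real.rpow_natCast, ← Real.rpow_mul (by norm_num), ← Real.rpow_mul (by norm_num), mul_comm]
    rw [h3]
    linarith
  filter_upwards [e1, e2, e3] with m h1 h2 h3
  set x : ℝ := (2 : ℝ) ^ m with hx
  have hx0 : 0 < x := by positivity
  set p : ℝ := x ^ (-(1 - 3 * η)) / 2 with hp
  have hp0 : 0 ≤ p := by positivity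
  have hEm : ∀ k, MeasurableSet (EE b S τ k) := by
    intro k
    exact hm k (MeasurableSet.of_discrete
      (s := {T : Finset ℕ | Disjoint T (Ioc (b k) (b k + ⌊τ * (Real.log (b k)) ^ 2⌋₊))}))
  have hprod : μ.real (Bad b S κ τ η m) = ∏ k ∈ GB b κ η m, μ.real ((EE b S τ k)ᶜ) := by
    have h4 := hind.measure_inter_preimage_eq_mul (GB b κ η m)
      (sets := fun k => {T : Finset ℕ | Disjoint T (Ioc (b k) (b k + ⌊τ * (Real.log (b k)) ^ 2⌋₊))}ᶜ)
      (fun i _ => MeasurableSet.of_discrete)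
    unfold Bad Measure.real
    rw [← ENNReal.toReal_prod]
    congr 1
  rw [hprod]
  have h4 : ∏ k ∈ GB b κ η m, μ.real ((EE b S τ k)ᶜ) ≤ ∏ k ∈ GB b κ η m, Real.exp (-p) := by
    apply Finset.prod_le_prod
    · intro k _
      exact measureReal_nonneg
    · intro k hk
      rw [measureReal_compl (hEm k), probReal_univ]
      have h5 := h1 k hk
      have h6 := Real.add_one_le_exp (-p)
      linarith
  refine h4.trans ?_
  rw [prod_const, ← Real.exp_nat_mul]
  have h5 : x ^ η / 2 ≤ ((GB b κ η m).card : ℝ) * p := by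
    calc x ^ η / 2 = x ^ (1 - 2 * η) * p := by
          rw [hp, ← mul_div_assoc, ← Real.rpow_add hx0]
          congr 2
          ring
      _ ≤ ((GB b κ η m).card : ℝ) * p := mul_le_mul_of_nonneg_right h2 hp0
  have h6 : (1 / 2 : ℝ) ^ m = Real.exp (-(m * Real.log 2)) := by
    rw [Real.exp_neg, mul_comm, Real.exp_mul, Real.exp_log (by norm_num), Real.rpow_natCast]
    rw [one_div, inv_pow]
  rw [h6]
  apply Real.exp_le_exp.2
  have h7 : (m : ℝ) * Real.log 2 ≤ m := by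
    have h8 : Real.log 2 ≤ 1 := by
      have := Real.log_two_lt_d9
      linarith
    have : (0 : ℝ) ≤ m := Nat.cast_nonneg m
    nlinarith
  linarith

/-- elements of the random set in every dyadic interval -/
theorem dyadic_elt (b : ℕ → ℕ) (hb : StrictMono b) (c : ℝ) (hc : 0 < c) (hlen : Len b c)
    (T : ℕ → Finset ℕ) (hT : ∀ k, T k ∈ (Ioc (b k) (b (k + 1))).powersetCard (Np b k)) :
    ∀ᶠ k : ℕ in atTop, ∃ p, (∃ i, p ∈ T i) ∧ 2 ^ (k + 1) < p ∧ p ≤ 2 ^ (k + 2) := by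
  have hpow : Tendsto (fun k : ℕ => ((2 : ℝ) ^ (k + 1))) atTop atTop :=
    (tendsto_pow_atTop_atTop_of_one_lt (by norm_num : (1 : ℝ) < 2)).comp (tendsto_add_atTop_nat 1)
  obtain ⟨k₁, hk₁⟩ := eventually_atTop.1 (hlen.eventually_le_const (show c < c + 1 by linarith))
  have hk₁' : ∀ k, max k₁ 2 ≤ k → (b (k + 1) : ℝ) ≤ b k + (c + 1) * (Real.log (b k)) ^ 2 := by
    intro k hk
    have h1 := hk₁ k ((le_max_left _ _).trans hk)
    have h2 : 2 ≤ b k := ((le_max_right _ _).trans hk).trans (hb.id_le k)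
    have h3 : (2 : ℝ) ≤ b k := by exact_mod_cast h2
    have h4 : 0 < Real.log (b k) := Real.log_pos (by linarith)
    rw [div_le_iff₀ (by positivity)] at h1
    linarith
  set k₀ := max k₁ 2 with hk₀
  filter_upwards [hpow.eventually mid_prime, hpow.eventually_ge_atTop (b (k₀ + 1) : ℝ),
    hpow.eventually (two_log (c + 1) (c + 2) (by linarith) (by linarith)),
    hpow.eventually (sq_log_le (4 * (c + 2)) (by linarith))] with k h1 h2 h3 h4
  obtain ⟨p, hp, hp1, hp2⟩ := h1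
  set y : ℝ := (2 : ℝ) ^ (k + 1) with hy
  have hy0 : 0 < y := by positivity
  have hex : ∃ i, p ≤ b i := ⟨p, hb.id_le p⟩
  set i' := Nat.find hex with hi'
  have hi1 : p ≤ b i' := Nat.find_spec hex
  have hik : k₀ + 1 < i' := by
    by_contra hcon
    have h5 := hb.monotone (not_lt.1 hcon)
    have h6 : (p : ℝ) ≤ b (k₀ + 1) := by exact_mod_cast hi1.trans h5
    linarith
  obtain ⟨i, hi⟩ : ∃ i, i' = i + 1 := ⟨i' - 1, by omega⟩
  have hi2 : b i < p := by
    have := Nat.find_min hex (m := i) (by omega)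
    omega
  rw [hi] at hi1
  have hi2r : (b i : ℝ) < p := by exact_mod_cast hi2
  have hi1r : (p : ℝ) ≤ b (i + 1) := by exact_mod_cast hi1
  have h5 := hk₁' i (by omega)
  have h6 : 2 ≤ b i := by
    have h7 : 2 ≤ i := by
      have : 2 ≤ k₀ := le_max_right _ _
      omega
    exact h7.trans (hb.id_le i)
  have h6r : (2 : ℝ) ≤ b i := by exact_mod_cast h6
  have h7 : (c + 1) * (Real.log (b i)) ^ 2 ≤ (c + 1) * (Real.log (2 * y)) ^ 2 := by
    have h8 : 0 < Real.log (b i) := Real.log_pos (by linarith)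
    have h9 : Real.log (b i) ≤ Real.log (2 * y) := Real.log_le_log (by linarith) (by linarith)
    gcongr
  have h8 : (b (i + 1) : ℝ) ≤ b i + y / 4 := by linarith
  have hN : 1 ≤ Np b i := by
    unfold Np
    rw [Nat.one_le_iff_ne_zero, ← Nat.pos_iff_ne_zero, card_pos]
    exact ⟨p, by rw [mem_filter, mem_Ioc]; exact ⟨⟨hi2, hi1⟩, hp⟩⟩
  have hTi := hT i
  rw [mem_powersetCard] at hTi
  have hne : (T i).Nonempty := by
    rw [← card_pos, hTi.2]
    omega
  obtain ⟨q, hq⟩ := hne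
  have hq' := hTi.1 hq
  rw [mem_Ioc] at hq'
  have hq1 : (b i : ℝ) < q := by exact_mod_cast hq'.1
  have hq2 : (q : ℝ) ≤ b (i + 1) := by exact_mod_cast hq'.2
  refine ⟨q, ⟨i, hq⟩, ?_, ?_⟩
  · have h9 : ((2 ^ (k + 1) : ℕ) : ℝ) < q := by
      push_cast
      linarith
    exact_mod_cast h9
  · have h9 : (q : ℝ) ≤ ((2 ^ (k + 2) : ℕ) : ℝ) := by
      push_cast
      have : (2 : ℝ) ^ (k + 2) = 2 * y := by rw [hy]; ring
      linarith
    exact_mod_cast h9

theorem params (c G ε : ℝ) (hc : 0 < c) (hG : 0 < G) (hε : 0 < ε)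
    (hε1 : ε < c * (1 - Real.exp (-G / c))) :
    ∃ t τ : ℝ, 0 < t ∧ t < 1 / 10 ∧ 0 < τ ∧ τ < c - t ∧
      (c / G + t) * (-Real.log (1 - τ / (c - t))) ≤ 1 - 3 * t ∧
      c * (1 - Real.exp (-G / c)) - ε ≤ τ * (1 - 2 * (2 * t)) ^ 2 := by
  set C : ℝ := c * (1 - Real.exp (-G / c)) with hC
  set τ : ℝ := C - ε / 2 with hτ
  have hτ0 : 0 < τ := by linarith
  have hCc : C < c := by
    rw [hC]
    have := Real.exp_pos (-G / c)
    nlinarith
  have hτc : τ < c := by linarith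
  have hq : Real.exp (-G / c) < 1 - τ / c := by
    have h1 : 1 - τ / c = Real.exp (-G / c) + ε / (2 * c) := by
      rw [hτ, hC]
      field_simp
      ring
    rw [h1]
    have : 0 < ε / (2 * c) := by positivity
    linarith
  have hq0 : 0 < 1 - τ / c := (Real.exp_pos _).trans hq
  have hlog : -Real.log (1 - τ / c) < G / c := by
    have h1 := Real.log_lt_log (Real.exp_pos _) hq
    rw [Real.log_exp] at h1
    have h2 : -G / c = -(G / c) := by ring
    rw [h2] at h1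
    linarith
  have hval : (c / G) * (-Real.log (1 - τ / c)) < 1 := by
    calc (c / G) * (-Real.log (1 - τ / c)) < (c / G) * (G / c) :=
          mul_lt_mul_of_pos_left hlog (by positivity)
      _ = 1 := by field_simp
  -- continuity at `0`
  have hcont1 : ContinuousAt (fun t : ℝ => (c / G + t) * (-Real.log (1 - τ / (c - t))) + 3 * t) 0 := by
    have h1 : ContinuousAt (fun t : ℝ => 1 - τ / (c - t)) 0 := by
      apply ContinuousAt.sub continuousAt_const
      apply ContinuousAt.div continuousAt_const (by fun_prop)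
      simpa using hc.ne'
    have h2 : ContinuousAt (fun t : ℝ => Real.log (1 - τ / (c - t))) 0 := by
      apply ContinuousAt.log h1
      simpa using hq0.ne'
    exact ((continuousAt_const.add continuousAt_id).mul h2.neg).add (by fun_prop)
  have hcont2 : ContinuousAt (fun t : ℝ => τ * (1 - 2 * (2 * t)) ^ 2) 0 := by fun_prop
  have e1 : ∀ᶠ t : ℝ in 𝓝 0, (c / G + t) * (-Real.log (1 - τ / (c - t))) + 3 * t < 1 := by
    apply hcont1.eventually_lt continuousAt_const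
    simpa using hval
  have e2 : ∀ᶠ t : ℝ in 𝓝 0, C - ε < τ * (1 - 2 * (2 * t)) ^ 2 := by
    apply continuousAt_const.eventually_lt hcont2
    simp
    linarith
  have e3 : ∀ᶠ t : ℝ in 𝓝 0, t < min (1 / 10) (c - τ) :=
    eventually_lt_nhds (lt_min (by norm_num) (by linarith))
  obtain ⟨δ, hδ, hall⟩ := Metric.eventually_nhds_iff.1 (e1.and (e2.and e3))
  have hd : dist (δ / 2) 0 < δ := by
    rw [Real.dist_eq, sub_zero, abs_of_pos (by linarith)]
    linarith
  obtain ⟨g1, g2, g3⟩ := hall hd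
  refine ⟨δ / 2, τ, by linarith, g3.trans_le (min_le_left _ _), hτ0, ?_, by linarith, g2.le⟩
  have := g3.trans_le (min_le_right _ _)
  linarith

theorem shuffled_eps (b : ℕ → ℕ) (hb : StrictMono b) (c : ℝ) (hc : 0 < c) (hlen : Len b c)
    (S : ℕ → Ω → Finset ℕ) (hm : ∀ k, Measurable (S k)) (hind : iIndepFun S μ)
    (hunif : ∀ k, ∀ T ∈ (Ioc (b k) (b (k + 1))).powersetCard (Np b k),
      μ.real {ω | S k ω = T} = 1 / ((b (k + 1) - b k).choose (Np b k) : ℝ)) (ε : ℝ) (hε : 0 < ε) :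
    ∀ᵐ ω ∂μ, ∀ᶠ x : ℝ in atTop, ∃ a a' : ℕ, (∃ k, a ∈ S k ω) ∧ (∃ k, a' ∈ S k ω) ∧ a < a' ∧
      (a' : ℝ) ≤ x ∧ (∀ p : ℕ, (∃ k, p ∈ S k ω) → ¬ (a < p ∧ p < a')) ∧
      (c * (1 - Real.exp (-(2 * Real.exp (-Real.eulerMascheroniConstant)) / c)) - ε) *
        (Real.log x) ^ 2 ≤ (a' : ℝ) - a := by
  set G : ℝ := 2 * Real.exp (-Real.eulerMascheroniConstant) with hG
  have hG0 : 0 < G := by positivity
  set C : ℝ := c * (1 - Real.exp (-G / c)) with hC
  have hC0 : 0 < C := by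
    rw [hC]
    apply mul_pos hc
    rw [sub_pos, Real.exp_lt_one_iff]
    have : 0 < G / c := by positivity
    have h2 : -G / c = -(G / c) := by ring
    rw [h2]
    linarith
  set ε' : ℝ := min ε (C / 2) with hε'
  have hε'0 : 0 < ε' := lt_min hε (by linarith)
  have hε'1 : ε' < C := (min_le_right _ _).trans_lt (by linarith)
  obtain ⟨t, τ, ht0, ht1, hτ0, hτ1, hp1, hp2⟩ := params c G ε' hc hG0 hε'0 hε'1
  have hκ : c < G * (c / G + t) := by
    have : G * (c / G + t) = c + G * t := by field_simp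
    rw [this]
    have : 0 < G * t := by positivity
    linarith
  have hm' : ∀ k T, MeasurableSet {ω | S k ω = T} := by
    intro k T
    exact hm k (MeasurableSet.of_discrete (s := {T}))
  have hbad := bad_prob μ b hb c hc hlen S hm hind hunif (c - t) (c / G + t) τ t (by linarith) hτ0
    hτ1 ht0 hκ (by linarith) hp1
  have hae1 := bc μ (Bad b S (c / G + t) τ t) (1 / 2) (by norm_num) (by norm_num) hbad
  have hae2 : ∀ᵐ ω ∂μ, ∀ k, S k ω ∈ (Ioc (b k) (b (k + 1))).powersetCard (Np b k) := by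
    rw [ae_all_iff]
    intro k
    exact ae_mem μ (b k) (b (k + 1)) (S k) (hm' k) (Np b k) (Np_le b k) (hunif k)
  have hfacts := block_facts b hb c hlen (c - t) (c / G + t) τ t (by linarith) hτ0 hτ1 (by linarith) 1
  have hr : ∀ᶠ m : ℕ in atTop, (2 : ℝ) ≤ ((2 : ℝ) ^ m) ^ t := by
    have h2 := (tendsto_pow_atTop_atTop_of_one_lt (Real.one_lt_rpow (by norm_num : (1 : ℝ) < 2) ht0)).eventually_ge_atTop 2
    filter_upwards [h2] with k h2
    have h3 : ((2 : ℝ) ^ k) ^ t = ((2 : ℝ) ^ t) ^ k := by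
      rw [← Real.rpow_natCast, ← Real.rpow_natCast, ← Real.rpow_mul (by norm_num), ← Real.rpow_mul (by norm_num), mul_comm]
    rw [h3]
    exact h2
  filter_upwards [hae1, hae2] with ω hω1 hω2
  refine gap_of (fun p => ∃ k, p ∈ S k ω) τ (2 * t) (C - ε) hτ0 (by linarith) (by linarith) ?_ ?_ ?_
  · have : ε' ≤ ε := min_le_left _ _
    linarith
  · obtain ⟨m₀, hm₀⟩ := eventually_atTop.1 (hω1.and (hfacts.and hr))
    filter_upwards [eventually_ge_atTop (m₀ + 1)] with k hk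
    obtain ⟨m, rfl⟩ : ∃ m, k = m + 1 := ⟨k - 1, by omega⟩
    obtain ⟨g1, g2, g3⟩ := hm₀ m (by omega)
    unfold Bad at g1
    simp only [Set.mem_iInter, Set.mem_compl_iff, not_forall, not_not] at g1
    obtain ⟨i, hi, hd⟩ := g1
    obtain ⟨-, -, f1, -, f2⟩ := g2 i hi
    unfold GB at hi
    rw [mem_filter] at hi
    obtain ⟨-, hi1, hi2, hi3⟩ := hi
    have hbi : b i < b (i + 1) := hb (Nat.lt_succ_self i)
    refine ⟨b i, f1, hbi.le.trans hi2, ?_, ?_⟩
    · refine lt_of_lt_of_le ?_ hi1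
      set z : ℝ := (2 : ℝ) ^ m with hz
      have hz0 : 0 < z := by positivity
      have h1 : ((2 : ℝ) ^ (m + 1)) ^ (1 - 2 * t) = (2 : ℝ) ^ (1 - 2 * t) * z ^ (1 - 2 * t) := by
        rw [pow_succ, Real.mul_rpow (by positivity) (by norm_num), mul_comm]
      have h2 : z ^ (1 - t) = z ^ t * z ^ (1 - 2 * t) := by
        rw [← Real.rpow_add hz0]
        congr 1
        ring
      have h3 : (2 : ℝ) ^ (1 - 2 * t) < 2 := by
        have := Real.rpow_lt_rpow_of_exponent_lt (show (1 : ℝ) < 2 by norm_num)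
          (show 1 - 2 * t < 1 by linarith)
        rwa [Real.rpow_one] at this
      rw [h1, h2]
      have h4 : 0 < z ^ (1 - 2 * t) := by positivity
      have h5 : (2 : ℝ) ^ (1 - 2 * t) * z ^ (1 - 2 * t) < z ^ t * z ^ (1 - 2 * t) :=
        mul_lt_mul_of_pos_right (h3.trans_le g3) h4
      linarith
    · rintro p hp1 hp2 ⟨i', hi'⟩
      have h1 := (mem_powersetCard.1 (hω2 i')).1 hi'
      rw [mem_Ioc] at h1
      have h2 : i' = i := by
        by_contra hne
        rcases Nat.lt_or_gt_of_ne hne with h | h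
        · have := hb.monotone (show i' + 1 ≤ i by omega)
          omega
        · have := hb.monotone (show i + 1 ≤ i' by omega)
          omega
      subst h2
      unfold EE at hd
      rw [Set.mem_setOf_eq, disjoint_left] at hd
      exact hd hi' (mem_Ioc.2 ⟨hp1, hp2⟩)
  · exact dyadic_elt b hb c hc hlen (fun k => S k ω) hω2

theorem shuffled (b : ℕ → ℕ) (hb : StrictMono b) (c : ℝ) (hc : 0 < c) (hlen : Len b c)
    (S : ℕ → Ω → Finset ℕ) (hm : ∀ k, Measurable (S k)) (hind : iIndepFun S μ)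
    (hunif : ∀ k, ∀ T ∈ (Ioc (b k) (b (k + 1))).powersetCard (Np b k),
      μ.real {ω | S k ω = T} = 1 / ((b (k + 1) - b k).choose (Np b k) : ℝ)) :
    ∀ᵐ ω ∂μ, ∀ ε : ℝ, 0 < ε → ∀ᶠ x : ℝ in atTop, ∃ a a' : ℕ, (∃ k, a ∈ S k ω) ∧
      (∃ k, a' ∈ S k ω) ∧ a < a' ∧
      (a' : ℝ) ≤ x ∧ (∀ p : ℕ, (∃ k, p ∈ S k ω) → ¬ (a < p ∧ p < a')) ∧
      (c * (1 - Real.exp (-(2 * Real.exp (-Real.eulerMascheroniConstant)) / c)) - ε) *
        (Real.log x) ^ 2 ≤ (a' : ℝ) - a := by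
  have h1 : ∀ᵐ ω ∂μ, ∀ m : ℕ, ∀ᶠ x : ℝ in atTop, ∃ a a' : ℕ, (∃ k, a ∈ S k ω) ∧
      (∃ k, a' ∈ S k ω) ∧ a < a' ∧
      (a' : ℝ) ≤ x ∧ (∀ p : ℕ, (∃ k, p ∈ S k ω) → ¬ (a < p ∧ p < a')) ∧
      (c * (1 - Real.exp (-(2 * Real.exp (-Real.eulerMascheroniConstant)) / c)) -
        1 / ((m : ℝ) + 1)) * (Real.log x) ^ 2 ≤ (a' : ℝ) - a := by
    rw [ae_all_iff]
    intro m
    exact shuffled_eps μ b hb c hc hlen S hm hind hunif (1 / ((m : ℝ) + 1)) (by positivity)
  filter_upwards [h1] with ω hω ε hε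
  obtain ⟨m, hm'⟩ := exists_nat_one_div_lt hε
  filter_upwards [hω m] with x hx
  obtain ⟨a, a', h2, h3, h4, h5, h6, h7⟩ := hx
  refine ⟨a, a', h2, h3, h4, h5, h6, le_trans ?_ h7⟩
  apply mul_le_mul_of_nonneg_right _ (sq_nonneg _)
  linarith

omit [MeasurableSpace (Finset ℕ)] [DiscreteMeasurableSpace (Finset ℕ)] in
/-- the constant is larger than `1` for `c ≥ 6` -/
theorem const_gt (c : ℝ) (hc : 6 ≤ c) :
    1.01 < c * (1 - Real.exp (-(2 * Real.exp (-Real.eulerMascheroniConstant)) / c)) := by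
  set G : ℝ := 2 * Real.exp (-Real.eulerMascheroniConstant) with hG
  have hG1 : 1.118 < G := by
    have h1 := exp_low
    have h2 : Real.exp (-(5812 / 10000)) < Real.exp (-Real.eulerMascheroniConstant) :=
      Real.exp_lt_exp.2 (by have := gamma_lt; linarith)
    rw [hG]
    linarith
  have hG2 : G < 2 := by
    have h1 : Real.exp (-Real.eulerMascheroniConstant) < 1 := by
      rw [Real.exp_lt_one_iff]
      have := Real.one_half_lt_eulerMascheroniConstant
      linarith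
    rw [hG]
    linarith
  set t : ℝ := G / c with ht
  have hc0 : 0 < c := by linarith
  have ht0 : 0 < t := by positivity
  have hneg : -G / c = -t := by rw [ht]; ring
  rw [hneg]
  -- `exp (-t) ≤ 1 - t + t^2/2`
  have hexp : Real.exp (-t) ≤ 1 - t + t ^ 2 / 2 := by
    have h1 : (1 + t + t ^ 2 / 2) ≤ Real.exp t := Real.quadratic_le_exp_of_nonneg ht0.le
    have h2 : 0 < 1 - t + t ^ 2 / 2 := by nlinarith [sq_nonneg (t - 1)]
    rw [Real.exp_neg, inv_le_iff_one_le_mul₀ (Real.exp_pos _)]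
    have h3 : (1 - t + t ^ 2 / 2) * (1 + t + t ^ 2 / 2) ≤ (1 - t + t ^ 2 / 2) * Real.exp t :=
      mul_le_mul_of_nonneg_left h1 h2.le
    nlinarith [sq_nonneg (t ^ 2)]
  have h1 : c * (t - t ^ 2 / 2) ≤ c * (1 - Real.exp (-t)) :=
    mul_le_mul_of_nonneg_left (by linarith) hc0.le
  have h2 : c * (t - t ^ 2 / 2) = G - G ^ 2 / (2 * c) := by
    rw [ht]
    field_simp
  have h3 : G ^ 2 / (2 * c) ≤ G ^ 2 / 12 := by
    apply div_le_div_of_nonneg_left (sq_nonneg G) (by norm_num) (by linarith)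
  nlinarith

end Pool.Agent.R526.SH
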