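import Pool.Agent.R526.TP.Prob

set_option autoImplicit false

/-! # Uniformly random subsets of a block -/

namespace Pool.Agent.R526.SH

open MeasureTheory ProbabilityTheory Filter Finset

open scoped Classical

theorem desc_low (l j N₀ : ℕ) (hj : j + N₀ ≤ l) : ∀ N ≤ N₀,
    (1 - (j : ℝ) / ((l : ℝ) - N₀)) ^ N * (l.descFactorial N : ℝ) ≤ ((l - j).descFactorial N : ℝ) := by
  have hr : (j : ℝ) + N₀ ≤ l := by exact_mod_cast hj
  have hq0 : 0 ≤ 1 - (j : ℝ) / ((l : ℝ) - N₀) := by
    rw [sub_nonneg]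
    apply div_le_one_of_le₀
    · linarith
    · have : (0 : ℝ) ≤ j := Nat.cast_nonneg j
      linarith
  intro N
  induction N with
  | zero => intro _; simp
  | succ N ih =>
    intro hN
    have h1 := ih (by omega)
    rw [Nat.descFactorial_succ, Nat.descFactorial_succ, Nat.cast_mul, Nat.cast_mul,
      Nat.cast_sub (show N ≤ l by omega), Nat.cast_sub (show N ≤ l - j by omega),
      Nat.cast_sub (show j ≤ l by omega)]
    set q := 1 - (j : ℝ) / ((l : ℝ) - N₀) with hq
    have hN' : (N : ℝ) + 1 ≤ N₀ := by exact_mod_cast hN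
    have h2 : q * ((l : ℝ) - N) ≤ (l : ℝ) - j - N := by
      rcases eq_or_lt_of_le (show (0 : ℝ) ≤ (l : ℝ) - N₀ by
        have : (0 : ℝ) ≤ j := Nat.cast_nonneg j
        linarith) with h0 | h0
      · have hj0 : (j : ℝ) = 0 := by
          have : (0 : ℝ) ≤ j := Nat.cast_nonneg j
          linarith
        rw [hq, hj0]
        simp
      · rw [hq, sub_mul, one_mul, div_mul_eq_mul_div]
        have h3 : (j : ℝ) ≤ j * ((l : ℝ) - N) / ((l : ℝ) - N₀) := by
          rw [le_div_iff₀ h0]
          apply mul_le_mul_of_nonneg_left _ (Nat.cast_nonneg j)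
          linarith
        linarith
    calc q ^ (N + 1) * (((l : ℝ) - N) * (l.descFactorial N : ℝ)) =
        (q * ((l : ℝ) - N)) * (q ^ N * (l.descFactorial N : ℝ)) := by ring
      _ ≤ ((l : ℝ) - j - N) * ((l - j).descFactorial N : ℝ) := by
        apply mul_le_mul h2 h1 (by positivity)
        linarith

theorem choose_low (l j N : ℕ) (hj : j + N ≤ l) :
    (1 - (j : ℝ) / ((l : ℝ) - N)) ^ N ≤ ((l - j).choose N : ℝ) / (l.choose N : ℝ) := by
  have h1 := desc_low l j N hj N le_rfl
  have hpos : (0 : ℝ) < l.choose N := by exact_mod_cast Nat.choose_pos (show N ≤ l by omega)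
  rw [le_div_iff₀ hpos]
  rw [Nat.descFactorial_eq_factorial_mul_choose, Nat.descFactorial_eq_factorial_mul_choose,
    Nat.cast_mul, Nat.cast_mul] at h1
  have hf : (0 : ℝ) < (N.factorial : ℝ) := by exact_mod_cast N.factorial_pos
  have h2 : (N.factorial : ℝ) * ((1 - (j : ℝ) / ((l : ℝ) - N)) ^ N * (l.choose N : ℝ)) ≤
      (N.factorial : ℝ) * ((l - j).choose N : ℝ) := by linarith
  exact le_of_mul_le_mul_left h2 hf

variable {Ω : Type} [MeasurableSpace Ω] (μ : Measure Ω) [IsProbabilityMeasure μ]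

theorem real_union (S : Ω → Finset ℕ) (hm : ∀ T, MeasurableSet {ω | S ω = T})
    (F : Finset (Finset ℕ)) : μ.real {ω | S ω ∈ F} = ∑ T ∈ F, μ.real {ω | S ω = T} := by
  have h1 : {ω | S ω ∈ F} = ⋃ T ∈ F, {ω | S ω = T} := by
    ext ω
    simp
  rw [h1, measureReal_biUnion_finset]
  · intro T _ T' _ hTT
    rw [Function.onFun, Set.disjoint_left]
    intro ω h2 h3
    exact hTT (h2.symm.trans h3)
  · intro T _
    exact hm T

/-- the probability that a uniformly random set misses an initial part of the block -/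
theorem empty_prob (A B : ℕ) (hAB : A ≤ B) (S : Ω → Finset ℕ) (hm : ∀ T, MeasurableSet {ω | S ω = T})
    (N : ℕ) (hunif : ∀ T ∈ (Ioc A B).powersetCard N, μ.real {ω | S ω = T} = 1 / ((B - A).choose N : ℝ))
    (j : ℕ) (hj : j + N ≤ B - A) :
    (1 - (j : ℝ) / (((B - A : ℕ) : ℝ) - N)) ^ N ≤ μ.real {ω | Disjoint (S ω) (Ioc A (A + j))} := by
  have h1 : μ.real {ω | S ω ∈ (Ioc (A + j) B).powersetCard N} =
      ((B - A - j).choose N : ℝ) / ((B - A).choose N : ℝ) := by
    rw [real_union μ S hm]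
    have h2 : ∀ T ∈ (Ioc (A + j) B).powersetCard N, μ.real {ω | S ω = T} =
        1 / ((B - A).choose N : ℝ) := by
      intro T hT
      apply hunif
      rw [mem_powersetCard] at hT ⊢
      exact ⟨hT.1.trans (Ioc_subset_Ioc_left (by omega)), hT.2⟩
    rw [sum_congr rfl h2, sum_const, card_powersetCard, Nat.card_Ioc, nsmul_eq_mul]
    have h3 : B - (A + j) = B - A - j := by omega
    rw [h3]
    ring
  refine (choose_low (B - A) j N hj).trans ?_
  rw [← h1]
  refine measureReal_mono ?_ (measure_ne_top _ _)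
  intro ω hω
  rw [Set.mem_setOf_eq, mem_powersetCard] at hω
  rw [Set.mem_setOf_eq, disjoint_left]
  intro a ha hb
  have h4 := hω.1 ha
  rw [mem_Ioc] at h4 hb
  omega

/-- almost surely the random set has the right size and lies in the block -/
theorem ae_mem (A B : ℕ) (S : Ω → Finset ℕ) (hm : ∀ T, MeasurableSet {ω | S ω = T})
    (N : ℕ) (hN : N ≤ B - A)
    (hunif : ∀ T ∈ (Ioc A B).powersetCard N, μ.real {ω | S ω = T} = 1 / ((B - A).choose N : ℝ)) :
    ∀ᵐ ω ∂μ, S ω ∈ (Ioc A B).powersetCard N := by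
  have h1 : μ.real {ω | S ω ∈ (Ioc A B).powersetCard N} = 1 := by
    rw [real_union μ S hm, sum_congr rfl hunif, sum_const, card_powersetCard, Nat.card_Ioc, nsmul_eq_mul]
    have : (0 : ℝ) < (B - A).choose N := by exact_mod_cast Nat.choose_pos hN
    field_simp
  have hmeas : MeasurableSet {ω | S ω ∈ (Ioc A B).powersetCard N} := by
    have h2 : {ω | S ω ∈ (Ioc A B).powersetCard N} =
        ⋃ T ∈ (Ioc A B).powersetCard N, {ω | S ω = T} := by
      ext ω
      simp
    rw [h2]
    exact Finset.measurableSet_biUnion _ fun T _ => hm T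
  have h3 : μ {ω | S ω ∈ (Ioc A B).powersetCard N} = 1 := by
    rw [Measure.real] at h1
    have := (ENNReal.toReal_eq_one_iff _).1 h1
    exact this
  exact (prob_compl_eq_zero_iff hmeas).2 h3

end Pool.Agent.R526.SH
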